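import Pool.Agent.Run7.h325.HRT.Stm
import Mathlib.Analysis.SpecialFunctions.Complex.LogBounds

set_option autoImplicit false

namespace Run7.h222.HRT

open Pool.Agent.Run7.h325.HRT

theorem abs_sg_le (N : ℕ) : |sg N| ≤ 1 := by
  unfold sg
  refine (Complex.abs_im_le_norm _).trans ?_
  simp

/-- the `N`-th term -/
theorem term_eq (u : ℂ) (N : ℕ) :
    (((-1 : ℂ) ^ (N + 1) * (-(Complex.I * u)) ^ N / N) -
      ((-1 : ℂ) ^ (N + 1) * (Complex.I * u) ^ N / N)).re = 2 / (N : ℝ) * sg N * (u ^ N).im := by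
  rcases Nat.even_or_odd N with he | ho
  · have h1 : sg N = 0 := by
      obtain ⟨k, rfl⟩ := he
      unfold sg
      rw [← two_mul, pow_mul, Complex.I_sq]
      rcases Nat.even_or_odd k with hk | hk
      · simp [hk.neg_one_pow]
      · simp [hk.neg_one_pow]
    rw [h1, he.neg_pow]; simp
  · have hI : (Complex.I ^ N) = Complex.I * (sg N : ℂ) := by
      obtain ⟨k, rfl⟩ := ho
      unfold sg
      have : Complex.I ^ (2 * k + 1) = (-1) ^ k * Complex.I := by
        rw [pow_succ, pow_mul, Complex.I_sq]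
      rw [this]
      rcases Nat.even_or_odd k with hk | hk
      · simp [hk.neg_one_pow]
      · simp [hk.neg_one_pow]
    have h2 : ((-1 : ℂ) ^ (N + 1)) = 1 := (ho.add_one).neg_one_pow
    rw [h2, ho.neg_pow, mul_pow, hI]
    have h3 : (1 * -(Complex.I * (sg N : ℂ) * u ^ N) / (N : ℂ) -
        1 * (Complex.I * (sg N : ℂ) * u ^ N) / (N : ℂ)) =
        ((2 / (N : ℝ) * sg N : ℝ) : ℂ) * (-(Complex.I * u ^ N)) := by
      push_cast; ring
    rw [h3, Complex.re_ofReal_mul]
    simp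

theorem taylor_diff (u : ℂ) (M : ℕ) :
    (Complex.logTaylor (M + 1) (-(Complex.I * u)) - Complex.logTaylor (M + 1) (Complex.I * u)).re =
      ∑ N ∈ Finset.Icc 1 M, 2 / (N : ℝ) * sg N * (u ^ N).im := by
  unfold Complex.logTaylor
  rw [← Finset.sum_sub_distrib, Complex.re_sum, Finset.sum_range_succ']
  have h0 : (((-1 : ℂ) ^ (0 + 1) * (-(Complex.I * u)) ^ 0 / ((0 : ℕ) : ℂ)) -
      ((-1 : ℂ) ^ (0 + 1) * (Complex.I * u) ^ 0 / ((0 : ℕ) : ℂ))).re = 0 := by simp
  rw [h0, add_zero]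
  have hIcc : Finset.Icc 1 M = Finset.Ico (0 + 1) (M + 1) := by
    ext k; simp only [Finset.mem_Icc, Finset.mem_Ico]; omega
  rw [hIcc, ← Finset.sum_Ico_add', ← Finset.range_eq_Ico]
  exact Finset.sum_congr rfl fun N _ => term_eq u (N + 1)

theorem t_SER : S_SER := by
  intro A t M hM hw
  set u := w A t with hu
  set z : ℂ := Complex.I * u with hz
  have hzn : ‖z‖ = ‖u‖ := by rw [hz, norm_mul, Complex.norm_I, one_mul]
  have hz1 : ‖z‖ < 1 := by rw [hzn]; exact hw
  have hmz1 : ‖-z‖ < 1 := by rw [norm_neg]; exact hz1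
  have hphi : phi A t = (Complex.log (1 + -z) - Complex.log (1 + z)).re := by
    rw [Complex.sub_re, Complex.log_re, Complex.log_re, ← sub_eq_add_neg]; rfl
  have hphiM : phiM A M t = (Complex.logTaylor (M + 1) (-z) - Complex.logTaylor (M + 1) z).re := by
    rw [hz, taylor_diff]; rfl
  have hpos : 0 < 1 - ‖u‖ := by linarith
  constructor
  · have h1 := Complex.norm_log_sub_logTaylor_le M hz1
    have h2 := Complex.norm_log_sub_logTaylor_le M hmz1
    rw [norm_neg] at h2
    rw [hzn] at h1 h2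
    have h3 : phi A t - phiM A M t =
        ((Complex.log (1 + -z) - Complex.logTaylor (M + 1) (-z)) -
          (Complex.log (1 + z) - Complex.logTaylor (M + 1) z)).re := by
      rw [hphi, hphiM]; simp only [Complex.sub_re]; ring
    rw [h3]
    have hX : ‖u‖ ^ (M + 1) * (1 - ‖u‖)⁻¹ / (M + 1) ≤ ‖u‖ ^ (M + 1) * (1 - ‖u‖)⁻¹ := by
      apply div_le_self
      · positivity
      · have : (0 : ℝ) ≤ M := Nat.cast_nonneg M
        linarith
    calc |((Complex.log (1 + -z) - Complex.logTaylor (M + 1) (-z)) -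
          (Complex.log (1 + z) - Complex.logTaylor (M + 1) z)).re|
        ≤ ‖(Complex.log (1 + -z) - Complex.logTaylor (M + 1) (-z)) -
          (Complex.log (1 + z) - Complex.logTaylor (M + 1) z)‖ := Complex.abs_re_le_norm _
      _ ≤ ‖Complex.log (1 + -z) - Complex.logTaylor (M + 1) (-z)‖ +
          ‖Complex.log (1 + z) - Complex.logTaylor (M + 1) z‖ := norm_sub_le _ _
      _ ≤ ‖u‖ ^ (M + 1) * (1 - ‖u‖)⁻¹ + ‖u‖ ^ (M + 1) * (1 - ‖u‖)⁻¹ := by linarith
      _ = 2 * ‖u‖ ^ (M + 1) / (1 - ‖u‖) := by rw [div_eq_mul_inv]; ring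
  · have hlo : ∀ v : ℂ, ‖v‖ = ‖u‖ → Real.log (1 - ‖u‖) ≤ Real.log ‖1 + v‖ ∧
        Real.log ‖1 + v‖ ≤ Real.log 2 := by
      intro v hv
      have h1 : 1 - ‖u‖ ≤ ‖1 + v‖ := by
        have := norm_sub_norm_le (1 : ℂ) (-v)
        rw [sub_neg_eq_add, norm_neg, norm_one, hv] at this
        exact this
      have h2 : ‖1 + v‖ ≤ 2 := by
        have := norm_add_le (1 : ℂ) v
        rw [norm_one, hv] at this
        linarith
      exact ⟨Real.log_le_log hpos h1, Real.log_le_log (by linarith) h2⟩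
    have ha := hlo z hzn
    have hb := hlo (-z) (by rw [norm_neg, hzn])
    have hphi2 : phi A t = Real.log ‖1 + -z‖ - Real.log ‖1 + z‖ := by
      rw [← sub_eq_add_neg]; rfl
    have hl2 : Real.log 2 ≤ 1 := by
      have := Real.log_two_lt_d9; linarith
    have hlog0 : Real.log (1 - ‖u‖) ≤ 0 := Real.log_nonpos hpos.le (by linarith [norm_nonneg u])
    have hA : |phi A t| ≤ Real.log 2 - Real.log (1 - ‖u‖) := by
      rw [hphi2, abs_le]; constructor <;> linarith [ha.1, ha.2, hb.1, hb.2]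
    have hB : |phiM A M t| ≤ 2 * (1 + Real.log M) := by
      unfold phiM
      refine (Finset.abs_sum_le_sum_abs _ _).trans ?_
      have h1 : ∀ N ∈ Finset.Icc 1 M, |2 / (N : ℝ) * sg N * (w A t ^ N).im| ≤ 2 * (N : ℝ)⁻¹ := by
        intro N _
        rw [abs_mul, abs_mul, abs_of_nonneg (by positivity : (0 : ℝ) ≤ 2 / (N : ℝ))]
        have h2 : |(w A t ^ N).im| ≤ 1 := by
          refine (Complex.abs_im_le_norm _).trans ?_
          rw [norm_pow]
          exact pow_le_one₀ (norm_nonneg _) hw.le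
        have h3 := abs_sg_le N
        calc 2 / (N : ℝ) * |sg N| * |(w A t ^ N).im| ≤ 2 / (N : ℝ) * 1 * 1 := by gcongr
          _ = 2 * (N : ℝ)⁻¹ := by rw [div_eq_mul_inv]; ring
      refine (Finset.sum_le_sum h1).trans ?_
      rw [← Finset.mul_sum]
      have h4 := harmonic_le_one_add_log M
      rw [harmonic_eq_sum_Icc] at h4
      push_cast at h4
      linarith
    have := abs_sub (phi A t) (phiM A M t)
    linarith

end Run7.h222.HRT
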