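import Pool.Agent.Run7.h325.HRT.Stm

set_option autoImplicit false

namespace Run7.h222.HRT

open Pool.Agent.Run7.h325.HRT

/-- the square of the norm of `w` -/
theorem w_normSq (A t : ℝ) :
    ‖w A t‖ ^ 2 = 1 - 4 * A * (1 - A) * Real.sin (Real.pi * (D * t)) ^ 2 := by
  have h1 : ‖w A t‖ ^ 2 = (w A t).re ^ 2 + (w A t).im ^ 2 := by
    rw [← Complex.normSq_eq_norm_sq, Complex.normSq_apply]; ring
  have hre : (w A t).re = A * Real.cos (2 * Real.pi * ((1 - A) * D * t)) +
      (1 - A) * Real.cos (2 * Real.pi * (A * D * t)) := by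
    simp only [w, Complex.add_re, Complex.mul_re, Complex.ofReal_re, Complex.ofReal_im, zero_mul,
      sub_zero, Complex.exp_ofReal_mul_I_re, Real.cos_neg]
  have him : (w A t).im = A * Real.sin (2 * Real.pi * ((1 - A) * D * t)) -
      (1 - A) * Real.sin (2 * Real.pi * (A * D * t)) := by
    simp only [w, Complex.add_im, Complex.mul_im, Complex.ofReal_re, Complex.ofReal_im, zero_mul,
      add_zero, Complex.exp_ofReal_mul_I_im, Real.sin_neg]
    ring
  set u := 2 * Real.pi * ((1 - A) * D * t) with hu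
  set v := 2 * Real.pi * (A * D * t) with hv
  have huv : u + v = 2 * (Real.pi * (D * t)) := by rw [hu, hv]; ring
  have hc : Real.cos (u + v) = 1 - 2 * Real.sin (Real.pi * (D * t)) ^ 2 := by
    rw [huv, Real.cos_two_mul, Real.cos_sq']; ring
  rw [Real.cos_add] at hc
  rw [h1, hre, him]
  have e1 := Real.sin_sq_add_cos_sq u
  have e2 := Real.sin_sq_add_cos_sq v
  linear_combination A ^ 2 * e1 + (1 - A) ^ 2 * e2 + 2 * A * (1 - A) * hc

theorem w_norm_le (A t : ℝ) (h0 : 0 < A) (h1 : A < 1) : ‖w A t‖ ≤ 1 := by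
  have h := w_normSq A t
  have h2 : ‖w A t‖ ^ 2 ≤ 1 := by
    rw [h]
    have : 0 ≤ 4 * A * (1 - A) * Real.sin (Real.pi * (D * t)) ^ 2 := by
      have : 0 < 1 - A := by linarith
      positivity
    linarith
  nlinarith [norm_nonneg (w A t)]

theorem w_neg (A t : ℝ) : w A (-t) = (starRingEnd ℂ) (w A t) := by
  simp only [w, map_add, map_mul, Complex.conj_ofReal, ← Complex.exp_conj, Complex.conj_I]
  congr 3
  · push_cast; ring_nf
  · push_cast; ring_nf

theorem sin_dist (s δ : ℝ) (hδ : 0 ≤ δ) (h : ∀ p : ℤ, δ ≤ |s - p|) :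
    4 * δ ^ 2 ≤ Real.sin (Real.pi * s) ^ 2 := by
  have h1 : |s - round s| ≤ 1 / 2 := abs_sub_round s
  have h2 : |Real.sin (Real.pi * s)| = |Real.sin (Real.pi * (s - round s))| := by
    have : Real.pi * s = Real.pi * (s - round s) + (round s : ℤ) * Real.pi := by ring
    rw [this, Real.sin_add_int_mul_pi, abs_mul]
    rcases Int.even_or_odd (round s) with he | ho
    · simp [he.neg_one_zpow]
    · simp [ho.neg_one_zpow]
  have h3 : 2 / Real.pi * |Real.pi * (s - round s)| ≤ |Real.sin (Real.pi * (s - round s))| := by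
    apply Real.mul_abs_le_abs_sin
    rw [abs_mul, abs_of_pos Real.pi_pos]
    nlinarith [Real.pi_pos]
  rw [abs_mul, abs_of_pos Real.pi_pos] at h3
  have h4 : 2 / Real.pi * (Real.pi * |s - round s|) = 2 * |s - round s| := by
    field_simp
  rw [h4, ← h2] at h3
  have h5 := h (round s)
  have h6 : 2 * δ ≤ |Real.sin (Real.pi * s)| := by linarith
  calc 4 * δ ^ 2 = (2 * δ) ^ 2 := by ring
    _ ≤ |Real.sin (Real.pi * s)| ^ 2 := by gcongr
    _ = Real.sin (Real.pi * s) ^ 2 := sq_abs _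

theorem t_WNORM : S_WNORM := by
  intro A t h0 h1
  refine ⟨w_norm_le A t h0 h1, fun δ hδ h => ?_, ?_⟩
  · have h2 := w_normSq A t
    have h3 := w_norm_le A t h0 h1
    have h4 := sin_dist (D * t) δ hδ h
    have h5 : 1 - ‖w A t‖ ^ 2 ≤ 2 * (1 - ‖w A t‖) := by
      nlinarith [norm_nonneg (w A t)]
    have h6 : 0 < A * (1 - A) := mul_pos h0 (by linarith)
    have h7 : 4 * A * (1 - A) * (4 * δ ^ 2) ≤
        4 * A * (1 - A) * Real.sin (Real.pi * (D * t)) ^ 2 := by
      have : 0 ≤ 4 * A * (1 - A) := by nlinarith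
      exact mul_le_mul_of_nonneg_left h4 this
    linarith
  · unfold phi
    rw [w_neg]
    have e1 : ‖1 - Complex.I * (starRingEnd ℂ) (w A t)‖ = ‖1 + Complex.I * w A t‖ := by
      rw [← Complex.norm_conj (1 + Complex.I * w A t)]
      simp [sub_eq_add_neg]
    have e2 : ‖1 + Complex.I * (starRingEnd ℂ) (w A t)‖ = ‖1 - Complex.I * w A t‖ := by
      rw [← Complex.norm_conj (1 - Complex.I * w A t)]
      simp [sub_eq_add_neg]
    rw [e1, e2]; ring

end Run7.h222.HRT
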